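import Pool.Agent.X67.GD.Basic

/-! Polynomials and systems of polynomials with given monomials, parametrised by their coefficients. -/

set_option autoImplicit false

open Filter Topology Finset

namespace Pool.Agent.X67.GD

variable {σ : Type} {s : ℕ}

/-- the integral polynomial with the monomials `M` and the coefficients `w` -/
noncomputable def form (M : Finset (σ →₀ ℕ)) (w : ↥M → ℤ) : MvPolynomial σ ℤ :=
  ∑ a : ↥M, MvPolynomial.monomial a.1 (w a)

open scoped Classical in
theorem coeff_form (M : Finset (σ →₀ ℕ)) (w : ↥M → ℤ) (m : σ →₀ ℕ) :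
    (form M w).coeff m = if h : m ∈ M then w ⟨m, h⟩ else 0 := by
  unfold form
  rw [MvPolynomial.coeff_sum]
  simp only [MvPolynomial.coeff_monomial]
  split_ifs with h
  · rw [Finset.sum_eq_single (⟨m, h⟩ : ↥M)]
    · simp
    · intro b _ hb
      rw [if_neg]
      intro h1
      exact hb (Subtype.ext h1)
    · intro h1
      exact absurd (mem_univ _) h1
  · apply Finset.sum_eq_zero
    intro b _
    rw [if_neg]
    intro h1
    exact h (h1 ▸ b.2)

theorem form_injective (M : Finset (σ →₀ ℕ)) : Function.Injective (form M) := by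
  intro w w' h
  funext a
  have h1 : (form M w).coeff a.1 = (form M w').coeff a.1 := by rw [h]
  rw [coeff_form, coeff_form, dif_pos a.2, dif_pos a.2] at h1
  exact h1

theorem form_image (M : Finset (σ →₀ ℕ)) (H : ℕ) :
    {f : MvPolynomial σ ℤ | f.support ⊆ M ∧ ∀ m, |f.coeff m| ≤ (H : ℤ)} = form M '' {w | ∀ l, |w l| ≤ (H : ℤ)} := by
  classical
  ext f
  constructor
  · rintro ⟨h1, h2⟩
    refine ⟨fun a => f.coeff a.1, fun l => h2 _, ?_⟩
    ext m
    rw [coeff_form]
    split_ifs with h
    · rfl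
    · have h3 : m ∉ f.support := fun h4 => h (h1 h4)
      exact (MvPolynomial.notMem_support_iff.1 h3).symm
  · rintro ⟨w, hw, rfl⟩
    refine ⟨fun m hm => ?_, fun m => ?_⟩
    · by_contra h
      rw [MvPolynomial.mem_support_iff, coeff_form, dif_neg h] at hm
      exact hm rfl
    · rw [coeff_form]
      split_ifs with h
      · exact hw _
      · simp

/-- the coefficients of the systems with the monomials `mon` -/
abbrev Coef (mon : Fin s → Finset (σ →₀ ℕ)) : Type := Σ j : Fin s, ↥(mon j)

/-- the system of integral polynomials with the monomials `mon` and the coefficients `w` -/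
noncomputable def system (mon : Fin s → Finset (σ →₀ ℕ)) (w : Coef mon → ℤ) : Fin s → MvPolynomial σ ℤ :=
  fun j => form (mon j) fun a => w ⟨j, a⟩

theorem system_injective (mon : Fin s → Finset (σ →₀ ℕ)) : Function.Injective (system mon) := by
  intro w w' h
  funext ⟨j, a⟩
  have h1 := form_injective (mon j) (congrFun h j)
  exact congrFun h1 a

theorem system_image (mon : Fin s → Finset (σ →₀ ℕ)) (H : ℕ) :
    {f : Fin s → MvPolynomial σ ℤ | ∀ j, (f j).support ⊆ mon j ∧ ∀ m, |(f j).coeff m| ≤ (H : ℤ)} =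
      system mon '' {w | ∀ l, |w l| ≤ (H : ℤ)} := by
  ext f
  constructor
  · intro h
    have h1 : ∀ j, ∃ w : ↥(mon j) → ℤ, (∀ l, |w l| ≤ (H : ℤ)) ∧ form (mon j) w = f j := by
      intro j
      have h2 : f j ∈ form (mon j) '' {w | ∀ l, |w l| ≤ (H : ℤ)} := by
        rw [← form_image]
        exact h j
      obtain ⟨w, hw, hf⟩ := h2
      exact ⟨w, hw, hf⟩
    choose w hw hf using h1
    exact ⟨fun l => w l.1 l.2, fun l => hw l.1 l.2, funext hf⟩
  · rintro ⟨w, hw, rfl⟩ j
    have h2 : system mon w j ∈ form (mon j) '' {w | ∀ l, |w l| ≤ (H : ℤ)} :=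
      ⟨fun a => w ⟨j, a⟩, fun l => hw _, rfl⟩
    rw [← form_image] at h2
    exact h2

/-- the monomials of degree `d` in the variables `Fin (n + 1)` -/
noncomputable def mons (n d : ℕ) : Finset (Fin (n + 1) →₀ ℕ) := Finset.univ.finsuppAntidiag d

theorem mem_mons {n d : ℕ} {m : Fin (n + 1) →₀ ℕ} : m ∈ mons n d ↔ ∑ i, m i = d := by
  unfold mons
  rw [Finset.mem_finsuppAntidiag]
  simp

theorem isHomogeneous_iff {n d : ℕ} (f : MvPolynomial (Fin (n + 1)) ℤ) :
    f.IsHomogeneous d ↔ f.support ⊆ mons n d := by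
  constructor
  · intro h m hm
    rw [mem_mons]
    by_contra h1
    rw [MvPolynomial.mem_support_iff] at hm
    apply hm
    apply h.coeff_eq_zero
    rwa [Finsupp.degree_eq_sum]
  · intro h
    rw [f.as_sum]
    apply MvPolynomial.IsHomogeneous.sum
    intro m hm
    apply MvPolynomial.isHomogeneous_monomial
    rw [Finsupp.degree_eq_sum]
    exact mem_mons.1 (h hm)

theorem systems_eq {n : ℕ} (d : Fin s → ℕ) (H : ℕ) :
    {f : Fin s → MvPolynomial (Fin (n + 1)) ℤ | ∀ j, (f j).IsHomogeneous (d j) ∧ ∀ m, |(f j).coeff m| ≤ (H : ℤ)} =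
      system (fun j => mons n (d j)) '' {w | ∀ l, |w l| ≤ (H : ℤ)} := by
  rw [← system_image]
  ext f
  exact forall_congr' fun j => and_congr (isHomogeneous_iff _) Iff.rfl

end Pool.Agent.X67.GD
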