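import Pool.Agent.X67.GD.Basic

/-!
# Generic dilates and properties which depend on the step
-/

set_option autoImplicit false

namespace Pool.Agent.X67.GD

open Filter MeasureTheory Finset
open scoped ENNReal Topology

/-- **Generic dilates, properties of natural numbers depending on the step.** If, for all `n` and `H ≥ 1`, at most `η_n H`
of the numbers `1 ≤ A ≤ H` fail to have the property `P n`, and `∑ η_n max(L_n, 1) < ∞`, `v_n ≥ max(L_n, 1)` for all large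
`n`, then for almost all real `α`, for all large `n`, ALL the natural numbers `A ≥ 1` with `|A - v_n α| ≤ L_n` have the
property `P n`. -/
theorem ae_steps_nat (P : ℕ → ℕ → Prop) (L v η : ℕ → ℝ) (hη : ∀ n, 0 ≤ η n)
    (h : ∀ n, ∀ H : ℕ, 1 ≤ H → ({A : ℕ | 1 ≤ A ∧ A ≤ H ∧ ¬ P n A}.ncard : ℝ) ≤ η n * H)
    (hv : ∀ᶠ n in atTop, 1 ≤ v n ∧ L n ≤ v n) (hs : Summable fun n => η n * max (L n) 1) :
    ∀ᵐ α : ℝ, ∃ n₀ : ℕ, ∀ n : ℕ, n₀ ≤ n → ∀ A : ℕ, 1 ≤ A → |(A : ℝ) - v n * α| ≤ L n → P n A := by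
  classical
  set Q : ℕ → (Fin 1 → ℤ) → Prop := fun n w => ∀ A : ℕ, 1 ≤ A → w 0 = (A : ℤ) → P n A with hQ
  have hcount : ∀ n, ∀ H : ℕ, 1 ≤ H → (({w : Fin 1 → ℤ | (∀ l, |w l| ≤ (H : ℤ)) ∧ ¬ Q n w}.ncard : ℕ) : ℝ) ≤
      η n * (2 * (H : ℝ) + 1) ^ Fintype.card (Fin 1) := by
    intro n H hH
    have hfin : {A : ℕ | 1 ≤ A ∧ A ≤ H ∧ ¬ P n A}.Finite := (Set.finite_Icc 1 H).subset fun A hA => ⟨hA.1, hA.2.1⟩
    have hsub : {w : Fin 1 → ℤ | (∀ l, |w l| ≤ (H : ℤ)) ∧ ¬ Q n w} ⊆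
        (fun A : ℕ => (fun _ => (A : ℤ) : Fin 1 → ℤ)) '' {A : ℕ | 1 ≤ A ∧ A ≤ H ∧ ¬ P n A} := by
      rintro w ⟨hw, hwQ⟩
      rw [hQ] at hwQ
      push Not at hwQ
      obtain ⟨A, hA1, hA2, hA3⟩ := hwQ
      refine ⟨A, ⟨hA1, ?_, hA3⟩, ?_⟩
      · have h1 := hw 0
        rw [hA2, Nat.abs_cast] at h1
        exact_mod_cast h1
      · funext l
        rw [Subsingleton.elim l 0, hA2]
    have h1 := (Set.ncard_le_ncard hsub (hfin.image _)).trans (Set.ncard_image_le hfin)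
    have h2 : (0 : ℝ) ≤ H := Nat.cast_nonneg _
    calc (({w : Fin 1 → ℤ | (∀ l, |w l| ≤ (H : ℤ)) ∧ ¬ Q n w}.ncard : ℕ) : ℝ)
        ≤ ({A : ℕ | 1 ≤ A ∧ A ≤ H ∧ ¬ P n A}.ncard : ℝ) := by exact_mod_cast h1
      _ ≤ η n * H := h n H hH
      _ ≤ η n * (2 * (H : ℝ) + 1) ^ Fintype.card (Fin 1) := by
          rw [Fintype.card_fin, pow_one]
          exact mul_le_mul_of_nonneg_left (by linarith) (hη n)
  have key : ∀ N : ℕ, 1 ≤ N → ∀ᵐ α : Fin 1 → ℝ, (∀ l, |α l| ≤ N) →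
      ∃ n₀ : ℕ, ∀ n : ℕ, n₀ ≤ n → ∀ w : Fin 1 → ℤ, (∀ l, |(w l : ℝ) - v n * α l| ≤ L n) → Q n w := by
    intro N hN
    set S : ℕ → Set (Fin 1 → ℝ) := fun n => if 1 ≤ v n ∧ L n ≤ v n then badSet (Q n) L v N n else ∅ with hS
    have hvol : ∀ n, volume (S n) ≤ ENNReal.ofReal (2 * (2 * (N : ℝ) + 5) * (η n * max (L n) 1)) := by
      intro n
      rw [hS]
      dsimp only
      split_ifs with hn
      · refine (volume_badSet (Q n) L v N n hN (max (L n) 1) (η n) (le_max_left _ _) (le_max_right _ _)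
          (max_le hn.2 hn.1) 1 (by exact_mod_cast hn.1) (hη n) (hcount n)).trans (le_of_eq ?_)
        congr 1
        rw [Fintype.card_fin, pow_one, pow_one]
        ring
      · simp
    have hne : ∑' n, volume (S n) ≠ ∞ :=
      ne_top_of_le_ne_top (hs.mul_left (2 * (2 * (N : ℝ) + 5))).tsum_ofReal_ne_top (ENNReal.tsum_le_tsum hvol)
    filter_upwards [ae_finite_setOfPred_mem hne] with α hα hαN
    have h1 : ∀ᶠ n in atTop, n ∉ {n | α ∈ S n} := by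
      have h2 : ∀ᶠ n in cofinite, n ∉ {n | α ∈ S n} := hα.compl_mem_cofinite
      rwa [Nat.cofinite_eq_atTop] at h2
    obtain ⟨n₀, hn₀⟩ := (h1.and hv).exists_forall_of_atTop
    refine ⟨n₀, fun n hn w hw => ?_⟩
    obtain ⟨h3, h4⟩ := hn₀ n hn
    by_contra hP
    apply h3
    show α ∈ S n
    rw [hS]
    dsimp only
    rw [if_pos h4]
    exact ⟨hαN, w, hw, hP⟩
  have key' : ∀ᵐ α : Fin 1 → ℝ, ∀ N : ℕ, 1 ≤ N → (∀ l, |α l| ≤ N) →
      ∃ n₀ : ℕ, ∀ n : ℕ, n₀ ≤ n → ∀ w : Fin 1 → ℤ, (∀ l, |(w l : ℝ) - v n * α l| ≤ L n) → Q n w := by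
    rw [ae_all_iff]
    intro N
    by_cases hN : 1 ≤ N
    · filter_upwards [key N hN] with α hα _
      exact hα
    · exact Eventually.of_forall fun α h => absurd h hN
  have key2 := (volume_preserving_funUnique (Fin 1) ℝ).symm.quasiMeasurePreserving.ae key'
  filter_upwards [key2] with α hα
  have hα0 : ∀ l, (MeasurableEquiv.funUnique (Fin 1) ℝ).symm α l = α := by
    intro l
    rw [Subsingleton.elim l default]
    rfl
  obtain ⟨N, hN⟩ := exists_nat_ge |α|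
  obtain ⟨n₀, hn₀⟩ := hα (N + 1) (by omega) (fun l => by
    rw [hα0]
    push_cast
    linarith)
  refine ⟨n₀, fun n hn A hA hAn => ?_⟩
  refine hn₀ n hn (fun _ => (A : ℤ)) (fun l => ?_) A hA rfl
  rw [hα0]
  push_cast
  exact hAn

end Pool.Agent.X67.GD
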