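import Mathlib

/-!
# Generic dilates avoid sets of density zero

Let `P` be a property of integral vectors which fails only for a proportion tending to zero of the vectors of sup norm at
most `H`, and let `L_n` be real numbers. There are numbers `g_n` such that for every sequence `v_n ≥ g_n` and almost all
real vectors `α`, for all large `n`, ALL integral vectors in the cube with centre `v_n α` and side `2 L_n` have the
property `P`.
-/

set_option autoImplicit false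

open MeasureTheory Filter Topology Finset
open scoped ENNReal

namespace Pool.Agent.X67.GD

section Basic

variable {κ : Type} [Fintype κ]

/-- for all large `n` all the integral vectors in the cube with centre `v n • α` and side `2 * L n` have the property
`P` -/
def AllNear (P : (κ → ℤ) → Prop) (L v : ℕ → ℝ) (α : κ → ℝ) : Prop :=
  ∃ n₀ : ℕ, ∀ n : ℕ, n₀ ≤ n → ∀ w : κ → ℤ, (∀ l, |(w l : ℝ) - v n * α l| ≤ L n) → P w

/-- the property `P` fails for a proportion tending to zero of the integral vectors of sup norm at most `H` -/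
def DensityOne (P : (κ → ℤ) → Prop) : Prop :=
  Tendsto (fun H : ℕ => (({w : κ → ℤ | (∀ l, |w l| ≤ (H : ℤ)) ∧ ¬ P w}.ncard : ℕ) : ℝ) /
    (2 * (H : ℝ) + 1) ^ Fintype.card κ) atTop (𝓝 0)

lemma finite_box (H : ℕ) : {w : κ → ℤ | ∀ l, |w l| ≤ (H : ℤ)}.Finite := by
  classical
  refine (Finset.finite_toSet (Fintype.piFinset fun _ : κ => Icc (-(H : ℤ)) H)).subset ?_
  intro w hw
  rw [mem_coe, Fintype.mem_piFinset]
  intro l
  rw [mem_Icc]
  exact abs_le.1 (hw l)

lemma ncard_box (H : ℕ) : ({w : κ → ℤ | ∀ l, |w l| ≤ (H : ℤ)}.ncard : ℝ) = (2 * (H : ℝ) + 1) ^ Fintype.card κ := by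
  classical
  have h : {w : κ → ℤ | ∀ l, |w l| ≤ (H : ℤ)} = ((Fintype.piFinset fun _ : κ => Icc (-(H : ℤ)) H : Finset (κ → ℤ)) :
      Set (κ → ℤ)) := by
    ext w
    rw [mem_coe, Fintype.mem_piFinset]
    exact ⟨fun hw l => mem_Icc.2 (abs_le.1 (hw l)), fun hw l => abs_le.2 (mem_Icc.1 (hw l))⟩
  rw [h, Set.ncard_coe_finset, Fintype.card_piFinset, prod_const, card_univ, Int.card_Icc]
  have h1 : ((H : ℤ) + 1 - -(H : ℤ)).toNat = 2 * H + 1 := by omega
  rw [h1]
  push_cast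
  ring

/-- the vectors `α` of sup norm at most `N` for which the cube number `n` contains an exception -/
def badSet (P : (κ → ℤ) → Prop) (L v : ℕ → ℝ) (N n : ℕ) : Set (κ → ℝ) :=
  {α | (∀ l, |α l| ≤ N) ∧ ∃ w : κ → ℤ, (∀ l, |(w l : ℝ) - v n * α l| ≤ L n) ∧ ¬ P w}

lemma volume_badSet (P : (κ → ℤ) → Prop) (L v : ℕ → ℝ) (N n : ℕ) (hN : 1 ≤ N) (ℓ η : ℝ) (hL : L n ≤ ℓ) (hℓ : 1 ≤ ℓ)
    (hv : ℓ ≤ v n) (G : ℕ) (hG : (G : ℝ) ≤ v n) (hη : 0 ≤ η)
    (h : ∀ H : ℕ, G ≤ H → (({w : κ → ℤ | (∀ l, |w l| ≤ (H : ℤ)) ∧ ¬ P w}.ncard : ℕ) : ℝ) ≤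
      η * (2 * (H : ℝ) + 1) ^ Fintype.card κ) :
    volume (badSet P L v N n) ≤
      ENNReal.ofReal (η * (2 * (N : ℝ) + 5) ^ Fintype.card κ * (2 * ℓ) ^ Fintype.card κ) := by
  classical
  have hv1 : 1 ≤ v n := hℓ.trans hv
  have hv0 : 0 < v n := by linarith
  have hN1 : (1 : ℝ) ≤ N := by exact_mod_cast hN
  set H : ℕ := ⌈(N : ℝ) * v n + ℓ⌉₊ with hH
  have hH1 : (N : ℝ) * v n + ℓ ≤ H := Nat.le_ceil _
  have hH2 : (H : ℝ) < (N : ℝ) * v n + ℓ + 1 := Nat.ceil_lt_add_one (by positivity)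
  have hGH : G ≤ H := by
    have : (G : ℝ) ≤ H := by nlinarith
    exact_mod_cast this
  have hfin : {w : κ → ℤ | (∀ l, |w l| ≤ (H : ℤ)) ∧ ¬ P w}.Finite := (finite_box H).subset fun w hw => hw.1
  set W : Finset (κ → ℤ) := hfin.toFinset with hW
  have hWc : (W.card : ℝ) ≤ η * (2 * (H : ℝ) + 1) ^ Fintype.card κ := by
    have h1 := h H hGH
    rwa [Set.ncard_eq_toFinset_card _ hfin] at h1
  have hsub : badSet P L v N n ⊆
      ⋃ w ∈ W, Set.Icc (fun l => ((w l : ℝ) - ℓ) / v n) (fun l => ((w l : ℝ) + ℓ) / v n) := by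
    rintro α ⟨hα, w, hw, hP⟩
    have hmem : w ∈ W := by
      rw [hW, Set.Finite.mem_toFinset]
      refine ⟨fun l => ?_, hP⟩
      have h1 := abs_le.1 (hw l)
      have h2 := abs_le.1 (hα l)
      have h3 : |(w l : ℝ)| ≤ H := by
        rw [abs_le]
        constructor <;> nlinarith
      exact_mod_cast h3
    refine Set.mem_biUnion hmem ⟨fun l => ?_, fun l => ?_⟩
    · have h1 := abs_le.1 (hw l)
      rw [div_le_iff₀ hv0]
      nlinarith
    · have h1 := abs_le.1 (hw l)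
      rw [le_div_iff₀ hv0]
      nlinarith
  have hcube : ∀ w : κ → ℤ, volume (Set.Icc (fun l => ((w l : ℝ) - ℓ) / v n) (fun l => ((w l : ℝ) + ℓ) / v n)) =
      ENNReal.ofReal ((2 * ℓ / v n) ^ Fintype.card κ) := by
    intro w
    rw [Real.volume_Icc_pi]
    have h1 : ∀ l, ((w l : ℝ) + ℓ) / v n - ((w l : ℝ) - ℓ) / v n = 2 * ℓ / v n := fun l => by
      field_simp
      ring
    simp only [h1, prod_const, card_univ]
    rw [ENNReal.ofReal_pow (by positivity)]
  calc volume (badSet P L v N n)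
      ≤ volume (⋃ w ∈ W, Set.Icc (fun l => ((w l : ℝ) - ℓ) / v n) (fun l => ((w l : ℝ) + ℓ) / v n)) :=
        measure_mono hsub
    _ ≤ ∑ w ∈ W, volume (Set.Icc (fun l => ((w l : ℝ) - ℓ) / v n) (fun l => ((w l : ℝ) + ℓ) / v n)) :=
        measure_biUnion_finset_le _ _
    _ = (W.card : ℝ≥0∞) * ENNReal.ofReal ((2 * ℓ / v n) ^ Fintype.card κ) := by
        simp only [hcube, sum_const, nsmul_eq_mul]
    _ = ENNReal.ofReal ((W.card : ℝ) * (2 * ℓ / v n) ^ Fintype.card κ) := by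
        rw [ENNReal.ofReal_mul (Nat.cast_nonneg _), ENNReal.ofReal_natCast]
    _ ≤ _ := by
        apply ENNReal.ofReal_le_ofReal
        have h2 : 2 * (H : ℝ) + 1 ≤ (2 * (N : ℝ) + 5) * v n := by nlinarith
        calc (W.card : ℝ) * (2 * ℓ / v n) ^ Fintype.card κ
            ≤ η * (2 * (H : ℝ) + 1) ^ Fintype.card κ * (2 * ℓ / v n) ^ Fintype.card κ :=
              mul_le_mul_of_nonneg_right hWc (by positivity)
          _ ≤ η * ((2 * (N : ℝ) + 5) * v n) ^ Fintype.card κ * (2 * ℓ / v n) ^ Fintype.card κ := by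
              gcongr
          _ = η * (2 * (N : ℝ) + 5) ^ Fintype.card κ * (v n * (2 * ℓ / v n)) ^ Fintype.card κ := by
              rw [mul_pow, mul_pow]
              ring
          _ = _ := by
              congr 2
              field_simp

/-- **Generic dilates avoid sets of density zero.** -/
theorem exists_gauge (P : (κ → ℤ) → Prop) (h : DensityOne P) (L : ℕ → ℝ) :
    ∃ g : ℕ → ℝ, ∀ v : ℕ → ℝ, (∀ᶠ n in atTop, g n ≤ v n) → ∀ᵐ α : κ → ℝ, AllNear P L v α := by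
  classical
  set ℓ : ℕ → ℝ := fun n => max (L n) 1 with hℓ
  have hℓ1 : ∀ n, 1 ≤ ℓ n := fun n => le_max_right _ _
  set η : ℕ → ℝ := fun n => (1 / 2) ^ n / (2 * ℓ n) ^ Fintype.card κ with hη
  have hη0 : ∀ n, 0 < η n := fun n => by
    have := hℓ1 n
    positivity
  have hex : ∀ n, ∃ G : ℕ, ∀ H : ℕ, G ≤ H → (({w : κ → ℤ | (∀ l, |w l| ≤ (H : ℤ)) ∧ ¬ P w}.ncard : ℕ) : ℝ) ≤
      η n * (2 * (H : ℝ) + 1) ^ Fintype.card κ := by
    intro n
    obtain ⟨G, hG⟩ := ((tendsto_order.1 h).2 (η n) (hη0 n)).exists_forall_of_atTop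
    refine ⟨G, fun H hH => ?_⟩
    have h1 := hG H hH
    rw [div_lt_iff₀ (by positivity)] at h1
    exact h1.le
  choose G hG using hex
  refine ⟨fun n => max (G n) (ℓ n), fun v hv => ?_⟩
  have key : ∀ N : ℕ, 1 ≤ N → ∀ᵐ α : κ → ℝ, (∀ l, |α l| ≤ N) → AllNear P L v α := by
    intro N hN
    set S : ℕ → Set (κ → ℝ) := fun n => if max (G n : ℝ) (ℓ n) ≤ v n then badSet P L v N n else ∅ with hS
    have hvol : ∀ n, volume (S n) ≤ ENNReal.ofReal ((2 * (N : ℝ) + 5) ^ Fintype.card κ * (1 / 2) ^ n) := by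
      intro n
      rw [hS]
      dsimp only
      split_ifs with hn
      · refine (volume_badSet P L v N n hN (ℓ n) (η n) (le_max_left _ _) (hℓ1 n) ((le_max_right _ _).trans hn) (G n)
          ((le_max_left _ _).trans hn) (hη0 n).le (hG n)).trans (le_of_eq ?_)
        congr 1
        have h1 : (2 * ℓ n) ^ Fintype.card κ ≠ 0 := by
          have := hℓ1 n
          positivity
        rw [hη]
        dsimp only
        field_simp
      · simp
    have hsm : Summable fun n : ℕ => (2 * (N : ℝ) + 5) ^ Fintype.card κ * (1 / 2 : ℝ) ^ n :=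
      (summable_geometric_of_lt_one (by norm_num) (by norm_num)).mul_left _
    have hne : ∑' n, volume (S n) ≠ ∞ :=
      ne_top_of_le_ne_top hsm.tsum_ofReal_ne_top (ENNReal.tsum_le_tsum hvol)
    filter_upwards [ae_finite_setOfPred_mem hne] with α hα hαN
    have h1 : ∀ᶠ n in atTop, n ∉ {n | α ∈ S n} := by
      have h2 : ∀ᶠ n in cofinite, n ∉ {n | α ∈ S n} := hα.compl_mem_cofinite
      rwa [Nat.cofinite_eq_atTop] at h2
    obtain ⟨n₀, hn₀⟩ := (h1.and hv).exists_forall_of_atTop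
    refine ⟨n₀, fun n hn w hw => ?_⟩
    obtain ⟨h3, h4⟩ := hn₀ n hn
    by_contra hP
    apply h3
    show α ∈ S n
    rw [hS]
    dsimp only
    rw [if_pos h4]
    exact ⟨hαN, w, hw, hP⟩
  have key' : ∀ᵐ α : κ → ℝ, ∀ N : ℕ, 1 ≤ N → (∀ l, |α l| ≤ N) → AllNear P L v α := by
    rw [ae_all_iff]
    intro N
    by_cases hN : 1 ≤ N
    · filter_upwards [key N hN] with α hα _
      exact hα
    · exact Eventually.of_forall fun α h => absurd h hN
  filter_upwards [key'] with α hα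
  obtain ⟨N, hN⟩ := exists_nat_ge (∑ l, |α l|)
  refine hα (N + 1) (by omega) fun l => ?_
  have h1 : |α l| ≤ ∑ l, |α l| := single_le_sum (f := fun l => |α l|) (fun j _ => abs_nonneg _) (mem_univ l)
  push_cast
  linarith

end Basic

/-- countably many sequences are dominated by one -/
lemma exists_dominating {ι : Type} [Countable ι] (g : ι → ℕ → ℝ) : ∃ G : ℕ → ℝ, ∀ i, ∀ᶠ n in atTop, g i n ≤ G n := by
  classical
  rcases isEmpty_or_nonempty ι with hι | hι
  · exact ⟨fun _ => 0, fun i => isEmptyElim i⟩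
  obtain ⟨e, he⟩ := exists_surjective_nat ι
  refine ⟨fun n => ∑ k ∈ range (n + 1), |g (e k) n|, fun i => ?_⟩
  obtain ⟨k, rfl⟩ := he i
  filter_upwards [eventually_ge_atTop k] with n hn
  refine (le_abs_self _).trans ?_
  exact single_le_sum (f := fun k => |g (e k) n|) (fun j _ => abs_nonneg _) (mem_range.2 (by omega))

/-- **Countably many properties at once.** -/
theorem exists_gauge_all {ι : Type} [Countable ι] (κ : ι → Type) [∀ i, Fintype (κ i)]
    (P : ∀ i, (κ i → ℤ) → Prop) (h : ∀ i, DensityOne (P i)) (L : ℕ → ℝ) :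
    ∃ g : ℕ → ℝ, ∀ v : ℕ → ℝ, (∀ᶠ n in atTop, g n ≤ v n) → ∀ i, ∀ᵐ α : κ i → ℝ, AllNear (P i) L v α := by
  choose g hg using fun i => exists_gauge (P i) (h i) L
  obtain ⟨G, hG⟩ := exists_dominating g
  refine ⟨G, fun v hv i => hg i v ?_⟩
  filter_upwards [hv, hG i] with n h1 h2
  exact h2.trans h1

/-- **Density one from a ratio of cardinalities.** -/
theorem densityOne_of_ratio {κ : Type} [Fintype κ] {F : Type} (Φ : (κ → ℤ) → F) (hΦ : Function.Injective Φ)
    (S : ℕ → Set F) (hS : ∀ H, S H = Φ '' {w | ∀ l, |w l| ≤ (H : ℤ)}) (A : ℕ → F → Prop) (A' B : F → Prop)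
    (hAB : ∀ H, ∀ f ∈ S H, A H f → B f) (hAA : ∀ᶠ H in atTop, ∀ f ∈ S H, A H f → A' f)
    (h : Tendsto (fun H : ℕ => (({f | f ∈ S H ∧ A H f}.ncard : ℕ) : ℝ) / (({f | f ∈ S H ∧ B f}.ncard : ℕ) : ℝ))
      atTop (𝓝 1)) : DensityOne (fun w => B (Φ w) → A' (Φ w)) := by
  classical
  have hSfin : ∀ H, (S H).Finite := fun H => by
    rw [hS]
    exact (finite_box H).image _
  have hScard : ∀ H, ((S H).ncard : ℝ) ≤ (2 * (H : ℝ) + 1) ^ Fintype.card κ := fun H => by
    rw [← ncard_box H, hS]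
    exact_mod_cast Set.ncard_image_le (finite_box H)
  have h0 : Tendsto (fun H : ℕ => 1 - (({f | f ∈ S H ∧ A H f}.ncard : ℕ) : ℝ) /
      (({f | f ∈ S H ∧ B f}.ncard : ℕ) : ℝ)) atTop (𝓝 0) := by
    have := h.const_sub 1
    rwa [sub_self] at this
  refine squeeze_zero' (Eventually.of_forall fun H => by positivity) ?_ h0
  filter_upwards [hAA] with H hH
  set a : ℕ := {f | f ∈ S H ∧ A H f}.ncard with ha
  set b : ℕ := {f | f ∈ S H ∧ B f}.ncard with hb
  have hbfin : {f | f ∈ S H ∧ B f}.Finite := (hSfin H).subset fun f hf => hf.1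
  have hsubA : {f | f ∈ S H ∧ A H f} ⊆ {f | f ∈ S H ∧ B f} := fun f hf => ⟨hf.1, hAB H f hf.1 hf.2⟩
  have hbad : {w : κ → ℤ | (∀ l, |w l| ≤ (H : ℤ)) ∧ ¬ (B (Φ w) → A' (Φ w))}.ncard ≤ b - a := by
    rw [ha, hb, ← Set.ncard_sdiff hsubA (hbfin.subset hsubA)]
    rw [← Set.ncard_image_of_injective _ hΦ]
    refine Set.ncard_le_ncard ?_ (hbfin.subset Set.sdiff_subset)
    rintro _ ⟨w, ⟨hw, hw2⟩, rfl⟩
    rw [_root_.not_imp] at hw2
    have hmem : Φ w ∈ S H := by
      rw [hS]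
      exact ⟨w, hw, rfl⟩
    exact ⟨⟨hmem, hw2.1⟩, fun h3 => hw2.2 (hH _ hmem h3.2)⟩
  have hab : a ≤ b := Set.ncard_le_ncard hsubA hbfin
  have hbS : (b : ℝ) ≤ (2 * (H : ℝ) + 1) ^ Fintype.card κ :=
    (Nat.cast_le.2 (Set.ncard_le_ncard (fun f hf => hf.1) (hSfin H))).trans (hScard H)
  have hbad' : (({w : κ → ℤ | (∀ l, |w l| ≤ (H : ℤ)) ∧ ¬ (B (Φ w) → A' (Φ w))}.ncard : ℕ) : ℝ) ≤ (b : ℝ) - a := by
    rw [← Nat.cast_sub hab]
    exact_mod_cast hbad
  rcases Nat.eq_zero_or_pos b with hb0 | hb0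
  · have h1 : (({w : κ → ℤ | (∀ l, |w l| ≤ (H : ℤ)) ∧ ¬ (B (Φ w) → A' (Φ w))}.ncard : ℕ) : ℝ) ≤ 0 := by
      have h2 : (b : ℝ) = 0 := by exact_mod_cast hb0
      have h3 : (0 : ℝ) ≤ a := Nat.cast_nonneg _
      linarith
    have h4 : (0 : ℝ) < (2 * (H : ℝ) + 1) ^ Fintype.card κ := by positivity
    have h5 : (b : ℝ) = 0 := by exact_mod_cast hb0
    rw [h5, div_zero, sub_zero]
    exact (div_nonpos_of_nonpos_of_nonneg h1 h4.le).trans zero_le_one
  · have hbp : (0 : ℝ) < b := by exact_mod_cast hb0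
    calc _ ≤ ((b : ℝ) - a) / (2 * (H : ℝ) + 1) ^ Fintype.card κ :=
          div_le_div_of_nonneg_right hbad' (by positivity)
      _ ≤ ((b : ℝ) - a) / b := div_le_div_of_nonneg_left
          (by have : (a : ℝ) ≤ b := by exact_mod_cast hab
              linarith) hbp hbS
      _ = 1 - (a : ℝ) / b := by rw [sub_div, div_self hbp.ne']

end Pool.Agent.X67.GD
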